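import Mathlib

/-!
Systems of equations and inequations over a group, and `κ`-existentially closed groups.
-/

set_option autoImplicit false

open Cardinal

universe u

namespace Pool.Agent.H49EC

/-- A member of a system over the group `G` in the variables `X`: an equation `w = 1` or an
inequation `w ≠ 1`, where `w` is an element of the free product `G * F(X)`. -/
inductive Condition (G X : Type u) [Group G] : Type u
  | eqn (w : Monoid.Coprod G (FreeGroup X)) : Condition G X
  | ineqn (w : Monoid.Coprod G (FreeGroup X)) : Condition G X

/-- The value in `H` of `w ∈ G * F(X)`, when the coefficients from `G` are sent to `H` by `j`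
and each variable `x` is given the value `a x`. -/
def value {G X H : Type u} [Group G] [Group H] (j : G →* H) (a : X → H) :
    Monoid.Coprod G (FreeGroup X) →* H :=
  Monoid.Coprod.lift j (FreeGroup.lift a)

/-- The condition becomes true in `H` under the assignment `a`. -/
def Condition.Holds {G X H : Type u} [Group G] [Group H] (j : G →* H) (a : X → H) :
    Condition G X → Prop
  | .eqn w => value j a w = 1
  | .ineqn w => value j a w ≠ 1

/-- The system `S` over `G` is solvable in `H` (to which `G` is mapped by `j`). -/
def SolvableIn {G X H : Type u} [Group G] [Group H] (S : Set (Condition G X)) (j : G →* H) :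
    Prop :=
  ∃ a : X → H, ∀ c ∈ S, c.Holds j a

/-- `G` is `κ`-existentially closed: every system of fewer than `κ` equations and inequations
over `G` which is solvable in some overgroup of `G` is solvable in `G`. -/
def IsExistentiallyClosed (κ : Cardinal.{u}) (G : Type u) [Group G] : Prop :=
  ∀ (X : Type u) (S : Set (Condition G X)), #S < κ →
    (∃ (H : Type u) (_ : Group H) (j : G →* H), Function.Injective j ∧ SolvableIn S j) →
    SolvableIn S (MonoidHom.id G)

end Pool.Agent.H49EC
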