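import Pool.Agent.H49EC.Defs

/-!
# Few automorphisms of `κ`-existentially closed groups

Let `κ` be a regular cardinal.  For every cardinal `μ ≥ κ` we construct a `κ`-existentially
closed group `G` with `|G| = 2 ^ μ` and `|Aut(G)| = 2 ^ μ = |G| < 2 ^ |G|`.

Outline.  Put `lam = 2 ^ μ`.  Inside `Perm Ω`, with `|Ω| > lam`, we consider the subgroups of size
at most `lam` acting freely on `Ω`; any abstract overgroup of size at most `lam` of such a
subgroup `P` can be realised by a larger free subgroup of `Perm Ω` (`exists_extension`).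
Given `P` we first adjoin solutions of all systems of at most `κ` conditions over `P` which are
solvable in some overgroup (`exists_solving`, an amalgamated free product over `P`) and then
adjoin `μ` elements which separate all elements of the group obtained so far
(`exists_separating`): if `Y` is a subset of a group `P`, then in `Perm (P × Fin 3)` the element
`e` moving only the fibre over `1` and the element `f` moving the fibres over all `p` with
`p⁻¹ ∈ Y` satisfy: `e` commutes with `x f x⁻¹` if and only if `x ∉ Y`, for all `x ∈ P`.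
Iterating `κ` times gives `G`.  The adjoined elements form a subset `A` of `G` of size at most
`μ` such that only the identity automorphism fixes `A` pointwise, so
`|Aut(G)| ≤ |G| ^ μ = 2 ^ μ`.
-/

set_option autoImplicit false

open Cardinal

universe u v

namespace Pool.Agent.H49EC

/-! ### Basic facts on words -/

section words

variable {G X Y H K : Type u} [Group G] [Group H] [Group K]

@[simp] lemma value_inl (j : G →* H) (a : X → H) (g : G) :
    value j a (Monoid.Coprod.inl g) = j g := by
  simp [value]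

@[simp] lemma value_inr (j : G →* H) (a : X → H) (w : FreeGroup X) :
    value j a (Monoid.Coprod.inr w) = FreeGroup.lift a w := by
  simp [value]

/-- pushing forward values along a homomorphism. -/
lemma value_comp (j : G →* H) (a : X → H) (f : H →* K) (w : Monoid.Coprod G (FreeGroup X)) :
    value (f.comp j) (f ∘ a) w = f (value j a w) := by
  have : value (f.comp j) (f ∘ a) = f.comp (value j a) := by
    apply Monoid.Coprod.hom_ext
    · ext g; simp
    · ext x; simp
  rw [this]; rfl

/-- renaming coefficients and variables. -/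
def mapWord {G' : Type u} [Group G'] (i : G →* G') (r : X → Y) :
    Monoid.Coprod G (FreeGroup X) →* Monoid.Coprod G' (FreeGroup Y) :=
  Monoid.Coprod.map i (FreeGroup.map r)

lemma value_mapWord {G' : Type u} [Group G'] (i : G →* G') (r : X → Y) (j : G' →* H)
    (a : Y → H) (w : Monoid.Coprod G (FreeGroup X)) :
    value j a (mapWord i r w) = value (j.comp i) (a ∘ r) w := by
  have : (value j a).comp (mapWord i r) = value (j.comp i) (a ∘ r) := by
    apply Monoid.Coprod.hom_ext
    · ext g; simp [mapWord]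
    · ext x; simp [mapWord]
  rw [← this]; rfl

/-- Renaming coefficients and variables in a condition. -/
def Condition.map {G' : Type u} [Group G'] (i : G →* G') (r : X → Y) :
    Condition G X → Condition G' Y
  | .eqn w => .eqn (mapWord i r w)
  | .ineqn w => .ineqn (mapWord i r w)

lemma holds_map {G' : Type u} [Group G'] (i : G →* G') (r : X → Y) (j : G' →* H)
    (a : Y → H) (c : Condition G X) :
    (c.map i r).Holds j a ↔ c.Holds (j.comp i) (a ∘ r) := by
  cases c <;> simp [Condition.map, Condition.Holds, value_mapWord]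

lemma holds_comp (j : G →* H) (a : X → H) (f : H →* K) (hf : Function.Injective f)
    (c : Condition G X) : c.Holds (f.comp j) (f ∘ a) ↔ c.Holds j a := by
  cases c with
  | eqn w => simp only [Condition.Holds, value_comp]; exact map_eq_one_iff f hf
  | ineqn w => simp only [Condition.Holds, value_comp, ne_eq]; exact (map_eq_one_iff f hf).not

/-- Each word involves finitely many variables. -/
lemma exists_support (w : Monoid.Coprod G (FreeGroup X)) :
    ∃ s : Finset X, ∀ (H : Type u) (_ : Group H) (j : G →* H) (a b : X → H),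
      (∀ x ∈ s, a x = b x) → value j a w = value j b w := by
  classical
  induction w using Monoid.Coprod.induction_on with
  | inl g => exact ⟨∅, fun H _ j a b _ => by simp⟩
  | inr v =>
    induction v using FreeGroup.induction_on with
    | C1 => exact ⟨∅, fun H _ j a b _ => by simp⟩
    | of x => exact ⟨{x}, fun H _ j a b h => by simpa using h x (by simp)⟩
    | inv_of x ih =>
      obtain ⟨s, hs⟩ := ih
      refine ⟨s, fun H _ j a b h => ?_⟩
      have := hs H _ j a b h
      simpa using this
    | mul x y ihx ihy =>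
      obtain ⟨s, hs⟩ := ihx
      obtain ⟨t, ht⟩ := ihy
      refine ⟨s ∪ t, fun H _ j a b h => ?_⟩
      rw [map_mul, map_mul, map_mul, hs H _ j a b (fun x hx => h x (by simp [hx])),
        ht H _ j a b (fun x hx => h x (by simp [hx]))]
  | mul x y ihx ihy =>
      obtain ⟨s, hs⟩ := ihx
      obtain ⟨t, ht⟩ := ihy
      refine ⟨s ∪ t, fun H _ j a b h => ?_⟩
      rw [map_mul, map_mul, hs H _ j a b (fun x hx => h x (by simp [hx])),
        ht H _ j a b (fun x hx => h x (by simp [hx]))]

lemma exists_support' (c : Condition G X) :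
    ∃ s : Finset X, ∀ (H : Type u) (_ : Group H) (j : G →* H) (a b : X → H),
      (∀ x ∈ s, a x = b x) → (c.Holds j a ↔ c.Holds j b) := by
  cases c with
  | eqn w =>
    obtain ⟨s, hs⟩ := exists_support w
    exact ⟨s, fun H _ j a b h => by simp only [Condition.Holds, hs H _ j a b h]⟩
  | ineqn w =>
    obtain ⟨s, hs⟩ := exists_support w
    exact ⟨s, fun H _ j a b h => by simp only [Condition.Holds, hs H _ j a b h]⟩

/-- cardinality of the free product. -/
lemma mk_coprod_le (lam : Cardinal.{u}) (h0 : ℵ₀ ≤ lam) {A B : Type u} [Group A] [Group B]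
    (hA : #A ≤ lam) (hB : #B ≤ lam) : #(Monoid.Coprod A B) ≤ lam := by
  have h1 : #(Monoid.Coprod A B) ≤ #(List (A ⊕ B)) :=
    Cardinal.mk_le_of_surjective (f := fun l => Monoid.Coprod.mk (FreeMonoid.ofList l))
      (by
        intro x
        obtain ⟨y, rfl⟩ := Monoid.Coprod.mk_surjective x
        exact ⟨FreeMonoid.toList y, by simp⟩)
  refine h1.trans ((mk_list_le_max _).trans (max_le h0 ?_))
  rw [mk_sum, Cardinal.lift_id, Cardinal.lift_id]
  exact (add_le_add hA hB).trans (by rw [add_eq_self h0])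

lemma mk_freeGroup_le (lam : Cardinal.{u}) (h0 : ℵ₀ ≤ lam) {A : Type u}
    (hA : #A ≤ lam) : #(FreeGroup A) ≤ lam := by
  cases isEmpty_or_nonempty A with
  | inl h =>
    have : Finite (FreeGroup A) := by
      have : Unique (FreeGroup A) := FreeGroup.instUniqueOfIsEmpty
      infer_instance
    exact (Cardinal.mk_le_aleph0).trans h0
  | inr h => rw [mk_freeGroup]; exact max_le hA h0

lemma mk_word_le (lam : Cardinal.{u}) (h0 : ℵ₀ ≤ lam) (hG : #G ≤ lam) (hX : #X ≤ lam) :
    #(Monoid.Coprod G (FreeGroup X)) ≤ lam :=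
  mk_coprod_le lam h0 hG (mk_freeGroup_le lam h0 hX)

lemma mk_condition_le (lam : Cardinal.{u}) (h0 : ℵ₀ ≤ lam) (hG : #G ≤ lam) (hX : #X ≤ lam) :
    #(Condition G X) ≤ lam := by
  have h1 : #(Condition G X) ≤
      #(Monoid.Coprod G (FreeGroup X) ⊕ Monoid.Coprod G (FreeGroup X)) :=
    Cardinal.mk_le_of_surjective
      (f := fun s => match s with
        | .inl w => Condition.eqn w
        | .inr w => Condition.ineqn w)
      (by
        intro c
        cases c with
        | eqn w => exact ⟨.inl w, rfl⟩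
        | ineqn w => exact ⟨.inr w, rfl⟩)
  refine h1.trans ?_
  rw [mk_sum, Cardinal.lift_id]
  exact (add_le_add (mk_word_le lam h0 hG hX) (mk_word_le lam h0 hG hX)).trans
    (by rw [add_eq_self h0])

lemma mk_range_value_le (lam : Cardinal.{u}) (h0 : ℵ₀ ≤ lam) (hG : #G ≤ lam) (hX : #X ≤ lam)
    (j : G →* H) (a : X → H) : #(value j a).range ≤ lam :=
  (Cardinal.mk_le_of_surjective (value j a).rangeRestrict_surjective).trans
    (mk_word_le lam h0 hG hX)

end words

/-! ### Adjoining solutions and separating elements -/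

section steps

/-- Closing a group under solutions of systems with at most `κ = #Y` conditions. -/
lemma exists_solving (lam : Cardinal.{u}) (h0 : ℵ₀ ≤ lam) (Y : Type u) (hY : ℵ₀ ≤ #Y)
    (hlam : lam ^ #Y ≤ lam) (P : Type u) [Group P] (hP : #P ≤ lam) :
    ∃ (Q : Type u) (_ : Group Q) (j : P →* Q), Function.Injective j ∧ #Q ≤ lam ∧
      ∀ (X : Type u) (S : Set (Condition P X)), #S ≤ #Y →
        (∃ (H : Type u) (_ : Group H) (i : P →* H), Function.Injective i ∧ SolvableIn S i) →
        SolvableIn S j := by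
  classical
  have hYlam : #Y ≤ lam := by
    have h2 : (2 : Cardinal) ≤ lam := (Cardinal.natCast_lt_aleph0 (n := 2)).le.trans h0
    exact ((Cardinal.cantor #Y).le.trans (Cardinal.power_le_power_right h2)).trans hlam
  -- the index set of solvable systems
  let Sys : Type u := {s : Y → Condition P Y //
    ∃ (H : Type u) (_ : Group H) (i : P →* H), Function.Injective i ∧
      SolvableIn (Set.range s) i}
  have hSys : #Sys ≤ lam := by
    refine (Cardinal.mk_subtype_le _).trans ?_
    rw [← Cardinal.power_def]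
    exact (Cardinal.power_le_power_right (mk_condition_le lam h0 hP hYlam)).trans hlam
  choose H hH i hi a ha using fun s : Sys => s.2
  let H' : Sys → Type u := fun s => (value (i s) (a s)).range
  let φ : (s : Sys) → P →* H' s := fun s =>
    (value (i s) (a s)).rangeRestrict.comp Monoid.Coprod.inl
  have hφ : ∀ s, Function.Injective (φ s) := by
    intro s x y hxy
    apply hi s
    have := congrArg Subtype.val hxy
    simpa [φ] using this
  have hH' : ∀ s, #(H' s) ≤ lam := fun s => mk_range_value_le lam h0 hP hYlam _ _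
  refine ⟨Monoid.PushoutI φ, inferInstance, Monoid.PushoutI.base φ,
    Monoid.PushoutI.base_injective hφ, ?_, ?_⟩
  · -- cardinality
    have h1 : #(Monoid.PushoutI φ) ≤ #(Monoid.Coprod (Monoid.CoprodI H') P) :=
      Cardinal.mk_le_of_surjective (Con.mk'_surjective (c := Monoid.PushoutI.con φ))
    refine h1.trans (mk_coprod_le lam h0 ?_ hP)
    have h2 : #(Monoid.CoprodI H') ≤ #(List (Σ s, H' s)) :=
      Cardinal.mk_le_of_surjective
        (f := fun l => (Con.mk' (conGen (Monoid.CoprodI.Rel H'))) (FreeMonoid.ofList l))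
        (by
          intro x
          obtain ⟨y, rfl⟩ := Con.mk'_surjective x
          exact ⟨FreeMonoid.toList y, rfl⟩)
    refine h2.trans ((mk_list_le_max _).trans (max_le h0 ?_))
    rw [mk_sigma]
    refine (Cardinal.sum_le_mk_mul_iSup _).trans ?_
    refine (mul_le_mul' hSys (ciSup_le' hH')).trans ?_
    rw [mul_eq_self h0]
  · intro X S hS hsol
    rcases S.eq_empty_or_nonempty with rfl | hne
    · exact ⟨fun _ => 1, fun c hc => absurd hc (Set.notMem_empty c)⟩
    obtain ⟨K, hK, k, hk, b, hb⟩ := hsol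
    have : Nonempty S := hne.to_subtype
    have : Infinite Y := Cardinal.infinite_iff.2 hY
    -- an enumeration of `S` by `Y`
    obtain ⟨s0, hs0⟩ : ∃ s0 : Y → S, Function.Surjective s0 := by
      obtain ⟨f⟩ := hS
      exact ⟨Function.invFun f, Function.invFun_surjective f.injective⟩
    choose supp hsupp using fun c : Condition P X => exists_support' c
    let X0 : Set X := ⋃ c : S, (supp c.1 : Set X)
    have hX0 : #X0 ≤ #Y := by
      refine (Cardinal.mk_iUnion_le_sum_mk).trans ?_
      refine (Cardinal.sum_le_mk_mul_iSup _).trans ?_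
      refine (mul_le_mul' hS (ciSup_le' (a := #Y) fun c => ?_)).trans (mul_eq_self hY).le
      exact ((Finset.finite_toSet _).lt_aleph0).le.trans hY
    obtain ⟨r0⟩ := hX0
    let y0 : Y := Classical.arbitrary Y
    let r : X → Y := fun x => if h : x ∈ X0 then r0 ⟨x, h⟩ else y0
    let b' : Y → K := Function.extend r0 (fun x => b x.1) (fun _ => 1)
    have hb' : ∀ x ∈ X0, b' (r x) = b x := by
      intro x hx
      simp only [r, hx, dif_pos, b']
      exact r0.injective.extend_apply _ _ _
    have key : ∀ y, ((s0 y).1.map (MonoidHom.id P) r).Holds k b' := by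
      intro y
      rw [holds_map]
      refine (hsupp (s0 y).1 K hK k _ _ ?_).2 (hb _ (s0 y).2)
      intro x hx
      exact hb' x (Set.mem_iUnion.2 ⟨s0 y, hx⟩)
    let t : Sys := ⟨fun y => (s0 y).1.map (MonoidHom.id P) r, K, hK, k, hk, b', by
      rintro c ⟨y, rfl⟩; exact key y⟩
    let b'' : Y → H' t := fun y =>
      (value (i t) (a t)).rangeRestrict (Monoid.Coprod.inr (FreeGroup.of y))
    refine ⟨(Monoid.PushoutI.of t ∘ b'') ∘ r, fun c hc => ?_⟩
    obtain ⟨y, hy⟩ := hs0 ⟨c, hc⟩
    have h1 : (c.map (MonoidHom.id P) r).Holds (i t) (a t) := by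
      have := ha t ((t.1) y) ⟨y, rfl⟩
      simpa [t, hy] using this
    have h2 : (c.map (MonoidHom.id P) r).Holds (φ t) b'' := by
      rw [← holds_comp (φ t) b'' (value (i t) (a t)).range.subtype
        (Subgroup.subtype_injective _)]
      have e1 : (value (i t) (a t)).range.subtype.comp (φ t) = i t := by
        ext x; simp [φ]
      have e2 : (value (i t) (a t)).range.subtype ∘ b'' = a t := by
        funext x; simp [b'']
      rw [e1, e2]
      exact h1
    rw [← holds_comp (φ t) b'' (Monoid.PushoutI.of (φ := φ) t)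
        (Monoid.PushoutI.of_injective hφ t),
      Monoid.PushoutI.of_comp_eq_base, holds_map] at h2
    exact h2

/-- The permutation of `P × Fin 3` preserving all fibres `{p} × Fin 3` and acting by `τ p` on
the fibre of `p`. -/
def fib {P : Type u} (τ : P → Equiv.Perm (Fin 3)) : Equiv.Perm (P × Fin 3) :=
  Equiv.prodCongrRight τ

/-- Left translation of the first coordinate. -/
def trans (P : Type u) [Group P] : P →* Equiv.Perm (P × Fin 3) where
  toFun x := Equiv.prodCongr (Equiv.mulLeft x) (Equiv.refl _)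
  map_one' := by ext ⟨p, k⟩ <;> simp
  map_mul' x y := by ext ⟨p, k⟩ <;> simp [mul_assoc]

lemma trans_injective (P : Type u) [Group P] : Function.Injective (trans P) := by
  intro x y h
  have := congrArg (fun f => (f (1, 0)).1) h
  simpa [trans] using this

lemma conj_fib {P : Type u} [Group P] (x : P) (τ : P → Equiv.Perm (Fin 3)) :
    trans P x * fib τ * (trans P x)⁻¹ = fib (fun p => τ (x⁻¹ * p)) := by
  rw [mul_inv_eq_iff_eq_mul]
  ext ⟨p, k⟩ <;> simp [trans, fib]

lemma commute_fib {P : Type u} (τ τ' : P → Equiv.Perm (Fin 3)) :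
    Commute (fib τ) (fib τ') ↔ ∀ p, Commute (τ p) (τ' p) := by
  constructor
  · intro h p
    ext k
    have := congrArg (fun f => (f (p, k)).2) h.eq
    simpa [fib] using congrArg Fin.val this
  · intro h
    ext ⟨p, k⟩
    · simp [fib]
    · have := congrArg (fun f => f k) (h p).eq
      simpa [fib] using congrArg Fin.val this

/-- Adjoining few elements separating all elements of a given group. -/
lemma exists_separating (lam : Cardinal.{u}) (h0 : ℵ₀ ≤ lam) (M : Type u) (hM : ℵ₀ ≤ #M)
    (hMlam : #M ≤ lam) (P : Type u) [Group P] (hP : #P ≤ lam) (hP2 : #P ≤ 2 ^ #M) :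
    ∃ (Q : Type u) (_ : Group Q) (j : P →* Q), Function.Injective j ∧ #Q ≤ lam ∧
      ∃ A : Set Q, #A ≤ #M ∧ ∀ x y : P, x ≠ y → ∃ a ∈ A, ∃ b ∈ A,
        ¬ (Commute a (j x * b * (j x)⁻¹) ↔ Commute a (j y * b * (j y)⁻¹)) := by
  classical
  have hI : #P ≤ #(Set M) := by rwa [Cardinal.mk_set]
  obtain ⟨I⟩ := hI
  let τe : P → Equiv.Perm (Fin 3) := fun p => if p = 1 then Equiv.swap 0 1 else 1
  let τ : M → P → Equiv.Perm (Fin 3) := fun m p => if m ∈ I p⁻¹ then Equiv.swap 1 2 else 1
  let a : Option M → Equiv.Perm (P × Fin 3) := fun o => match o with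
    | none => fib τe
    | some m => fib (τ m)
  have hopt : #(Option M) = #M := by
    rw [Cardinal.mk_option]; exact Cardinal.add_one_eq hM
  let Q := (value (trans P) a).range
  let j : P →* Q := (value (trans P) a).rangeRestrict.comp Monoid.Coprod.inl
  let α : Option M → Q := fun o =>
    (value (trans P) a).rangeRestrict (Monoid.Coprod.inr (FreeGroup.of o))
  have hα : ∀ o, (α o : Equiv.Perm (P × Fin 3)) = a o := by
    intro o; simp [α]
  have hj : ∀ x, (j x : Equiv.Perm (P × Fin 3)) = trans P x := by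
    intro x; simp [j]
  have hcomm : ∀ x m, Commute (α none) (j x * α (some m) * (j x)⁻¹) ↔ m ∉ I x := by
    intro x m
    have h1 : Commute (α none) (j x * α (some m) * (j x)⁻¹) ↔
        Commute (a none) (trans P x * a (some m) * (trans P x)⁻¹) := by
      constructor
      · intro h
        have := congrArg Subtype.val h.eq
        simp only [Subgroup.coe_mul, Subgroup.coe_inv, hα, hj] at this
        exact this
      · intro h
        apply Subtype.ext
        simp only [Subgroup.coe_mul, Subgroup.coe_inv, hα, hj]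
        exact h.eq
    rw [h1]
    simp only [a]
    rw [conj_fib, commute_fib]
    constructor
    · intro h hm
      have := h 1
      simp only [τe, τ, if_true, mul_one, inv_inv, hm] at this
      exact absurd this.eq (by decide)
    · intro hm p
      by_cases hp : p = 1
      · subst hp
        simp [τ, hm]
      · simp [τe, hp]
  refine ⟨Q, inferInstance, j, ?_, mk_range_value_le lam h0 hP (hopt.le.trans hMlam) _ _,
    Set.range α, Cardinal.mk_range_le.trans hopt.le, ?_⟩
  · intro x y h
    apply trans_injective P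
    rw [← hj, ← hj, h]
  · intro x y hxy
    have hne : I x ≠ I y := fun h => hxy (I.injective h)
    obtain ⟨m, hm⟩ : ∃ m, ¬ (m ∈ I x ↔ m ∈ I y) := by
      by_contra hcon
      push Not at hcon
      exact hne (Set.ext hcon)
    refine ⟨α none, ⟨_, rfl⟩, α (some m), ⟨_, rfl⟩, ?_⟩
    rw [hcomm, hcomm]
    tauto

end steps

/-! ### Free permutation groups on a large set -/

section ambient

/-- Two free `P`-sets of the same infinite cardinality larger than `|P|` are isomorphic. -/
lemma exists_equivariant (P X Y : Type u) [Group P] [MulAction P X] [MulAction P Y]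
    (hX : ∀ (p : P) (x : X), p • x = x → p = 1) (hY : ∀ (p : P) (y : Y), p • y = y → p = 1)
    (hXY : #X = #Y) (h0 : ℵ₀ ≤ #X) (hP : #P < #X) :
    ∃ e : X ≃ Y, ∀ (p : P) (x : X), e (p • x) = p • e x := by
  classical
  have main : ∀ (Z : Type u) [MulAction P Z], (∀ (p : P) (z : Z), p • z = z → p = 1) →
      ℵ₀ ≤ #Z → #P < #Z → ∃ (O : Type u) (θ : O × P ≃ Z), #O = #Z ∧
        ∀ (q : P) (o : O) (p : P), θ (o, q * p) = q • θ (o, p) := by
    intro Z _ hZ hZ0 hPZ
    let O := MulAction.orbitRel.Quotient P Z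
    have hbij : Function.Bijective (fun op : O × P => op.2 • (Quotient.out op.1 : Z)) := by
      constructor
      · rintro ⟨o, p⟩ ⟨o', p'⟩ h
        simp only at h
        have ho : o = o' := by
          rw [← Quotient.out_eq o, ← Quotient.out_eq o']
          apply Quotient.sound
          refine ⟨p⁻¹ * p', ?_⟩
          simp only [mul_smul, ← h, inv_smul_smul]
        subst ho
        have : (p'⁻¹ * p) • (Quotient.out o : Z) = Quotient.out o := by
          rw [mul_smul, h, inv_smul_smul]
        have := hZ _ _ this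
        rw [inv_mul_eq_one] at this
        rw [this]
      · intro z
        have : (Quotient.out (Quotient.mk'' z : O)) ∈ MulAction.orbit P z := by
          have := Quotient.exact (Quotient.out_eq (Quotient.mk'' z : O))
          exact this
        obtain ⟨p, hp⟩ := this
        refine ⟨(Quotient.mk'' z, p⁻¹), ?_⟩
        simp only [← hp, inv_smul_smul]
    refine ⟨O, Equiv.ofBijective _ hbij, ?_, ?_⟩
    · have h1 : #Z = #O * #P := by
        rw [← Cardinal.mk_congr (Equiv.ofBijective _ hbij)]; simp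
      have hP0 : #P ≠ 0 := Cardinal.mk_ne_zero _
      by_contra hne
      have hO : #O < #Z := by
        refine lt_of_le_of_ne ?_ hne
        rw [h1]
        exact Cardinal.le_mul_right hP0
      exact absurd h1 (Cardinal.mul_lt_of_lt hZ0 hO hPZ).ne'
    · intro q o p
      simp [mul_smul]
  obtain ⟨O, θ, hO, hθ⟩ := main X hX h0 hP
  obtain ⟨O', θ', hO', hθ'⟩ := main Y hY (hXY ▸ h0) (hXY ▸ hP)
  obtain ⟨f⟩ := Cardinal.eq.1 (hO.trans (hXY.trans hO'.symm))
  refine ⟨θ.symm.trans ((Equiv.prodCongr f (Equiv.refl P)).trans θ'), ?_⟩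
  intro p x
  obtain ⟨⟨o, q⟩, rfl⟩ := θ.surjective x
  rw [← hθ]
  simp [hθ']

/-- A free permutation group `P` on a set larger than `lam` extends to a free embedding of any
abstract overgroup of size at most `lam`. -/
lemma exists_extension (Ω : Type u) (P : Subgroup (Equiv.Perm Ω))
    (hfree : ∀ g ∈ P, ∀ ω, g ω = ω → g = 1) (lam : Cardinal.{u}) (h0 : ℵ₀ ≤ lam)
    (hΩ : lam < #Ω) (hP : #P ≤ lam) (Q : Type u) [Group Q] (hQ : #Q ≤ lam) (j : P →* Q)
    (hj : Function.Injective j) :
    ∃ ψ : Q →* Equiv.Perm Ω, (∀ p : P, ψ (j p) = p) ∧ ∀ q ω, ψ q ω = ω → q = 1 := by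
  classical
  let _ : MulAction P (Q × Ω) :=
    { smul := fun p x => (j p * x.1, x.2)
      one_smul := fun x => by
        change (j 1 * x.1, x.2) = x
        simp
      mul_smul := fun p q x => by
        change (j (p * q) * x.1, x.2) = (j p * (j q * x.1), x.2)
        simp [mul_assoc] }
  have hsm : ∀ (p : P) (x : Q × Ω), p • x = (j p * x.1, x.2) := fun _ _ => rfl
  have hQ0 : #Q ≠ 0 := Cardinal.mk_ne_zero _
  have hcard : #(Q × Ω) = #Ω := by
    rw [Cardinal.mk_prod, Cardinal.lift_id, Cardinal.lift_id]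
    exact Cardinal.mul_eq_right (h0.trans hΩ.le) (hQ.trans hΩ.le) hQ0
  obtain ⟨e, he⟩ := exists_equivariant P Ω (Q × Ω)
    (fun p ω h => Subtype.ext (hfree p.1 p.2 ω h))
    (fun p x h => by
      rw [hsm] at h
      have h1 : j p * x.1 = x.1 := congrArg Prod.fst h
      have h2 : j p = 1 := by simpa using h1
      exact hj (h2.trans (map_one j).symm)) hcard.symm (h0.trans hΩ.le) (hP.trans_lt hΩ)
  let T : Q →* Equiv.Perm (Q × Ω) :=
    { toFun := fun q => Equiv.prodCongr (Equiv.mulLeft q) (Equiv.refl _)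
      map_one' := by ext ⟨q, k⟩ <;> simp
      map_mul' := fun x y => by ext ⟨q, k⟩ <;> simp [mul_assoc] }
  have hT : ∀ q x, T q x = (q * x.1, x.2) := fun _ _ => rfl
  let ψ : Q →* Equiv.Perm Ω :=
    { toFun := fun q => e.trans ((T q).trans e.symm)
      map_one' := by ext ω; simp
      map_mul' := fun x y => by ext ω; simp }
  have hψ : ∀ q ω, ψ q ω = e.symm (T q (e ω)) := fun _ _ => rfl
  refine ⟨ψ, ?_, ?_⟩
  · intro p
    ext ω
    rw [hψ, Equiv.symm_apply_eq]
    have := he p ω
    rw [hsm] at this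
    rw [hT, ← this]
    rfl
  · intro q ω h
    rw [hψ, Equiv.symm_apply_eq, hT] at h
    have := congrArg Prod.fst h
    simpa using this

/-- One step of the construction. -/
lemma exists_step (Ω Y M : Type u) (hY : ℵ₀ ≤ #Y) (hM : ℵ₀ ≤ #M)
    (hYM : #Y ≤ #M) (hΩ : 2 ^ #M < #Ω)
    (P : Subgroup (Equiv.Perm Ω)) (hfree : ∀ g ∈ P, ∀ ω, g ω = ω → g = 1)
    (hP : #P ≤ 2 ^ #M) :
    ∃ P' : Subgroup (Equiv.Perm Ω), P ≤ P' ∧ (∀ g ∈ P', ∀ ω, g ω = ω → g = 1) ∧
      #P' = 2 ^ #M ∧
      (∀ (X : Type u) (S : Set (Condition P X)), #S ≤ #Y →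
        (∃ (H : Type u) (_ : Group H) (i : P →* H), Function.Injective i ∧ SolvableIn S i) →
        ∃ a : X → Equiv.Perm Ω, (∀ x, a x ∈ P') ∧ ∀ c ∈ S, c.Holds P.subtype a) ∧
      ∃ A : Set (Equiv.Perm Ω), #A ≤ #M ∧ A ⊆ P' ∧ ∀ x ∈ P, ∀ y ∈ P, x ≠ y →
        ∃ a ∈ A, ∃ b ∈ A, ¬ (Commute a (x * b * x⁻¹) ↔ Commute a (y * b * y⁻¹)) := by
  classical
  set lam : Cardinal.{u} := 2 ^ #M with hlam
  have hMlam : #M ≤ lam := (Cardinal.cantor _).le
  have h0 : ℵ₀ ≤ lam := hM.trans hMlam
  have hpow : lam ^ #Y ≤ lam := by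
    rw [hlam, ← Cardinal.power_mul, Cardinal.mul_eq_left hM hYM
      (aleph0_pos.trans_le hY).ne']
  obtain ⟨Q₁, _, j₁, hj₁, hQ₁, hsol⟩ := exists_solving lam h0 Y hY hpow P hP
  -- enlarge to get the exact cardinality
  let Q₂ := Q₁ × FreeGroup (Set M)
  have hset : #(Set M) = lam := Cardinal.mk_set
  have hQ₂ : #Q₂ = lam := by
    have h1 : #(FreeGroup (Set M)) = lam := by
      rw [Cardinal.mk_freeGroup, hset, max_eq_left h0]
    rw [Cardinal.mk_prod, Cardinal.lift_id, Cardinal.lift_id, h1]
    exact Cardinal.mul_eq_right h0 hQ₁ (Cardinal.mk_ne_zero _)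
  obtain ⟨Q₃, _, j₃, hj₃, hQ₃, A, hA, hsep⟩ :=
    exists_separating lam h0 M hM hMlam Q₂ hQ₂.le hQ₂.le
  let j₂ : Q₁ →* Q₂ := MonoidHom.inl _ _
  have hj₂ : Function.Injective j₂ := by
    intro x y h
    exact congrArg Prod.fst h
  let j : P →* Q₃ := (j₃.comp j₂).comp j₁
  have hj : Function.Injective j := hj₃.comp (hj₂.comp hj₁)
  obtain ⟨ψ, hψ, hψfree⟩ := exists_extension Ω P hfree lam h0 hΩ hP Q₃ hQ₃ j hj
  have hψinj : Function.Injective ψ := by
    have : Nonempty Ω := by
      rw [← Cardinal.mk_ne_zero_iff]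
      exact (lt_of_le_of_lt zero_le hΩ).ne'
    obtain ⟨ω⟩ := this
    rw [injective_iff_map_eq_one]
    intro q hq
    exact hψfree q ω (by rw [hq]; rfl)
  have hsub : ψ.comp j = P.subtype := MonoidHom.ext hψ
  refine ⟨ψ.range, ?_, ?_, ?_, ?_, ψ '' A, Cardinal.mk_image_le.trans hA, ?_, ?_⟩
  · intro p hp
    exact ⟨j ⟨p, hp⟩, hψ ⟨p, hp⟩⟩
  · rintro _ ⟨q, rfl⟩ ω h
    rw [hψfree q ω h, map_one]
  · apply le_antisymm
    · exact (Cardinal.mk_le_of_surjective ψ.rangeRestrict_surjective).trans hQ₃
    · rw [← hQ₂]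
      exact Cardinal.mk_le_of_injective
        (f := fun q => ψ.rangeRestrict (j₃ q))
        (((MonoidHom.rangeRestrict_injective_iff).2 hψinj).comp hj₃)
  · intro X S hS hH
    obtain ⟨a, ha⟩ := hsol X S hS hH
    refine ⟨ψ ∘ (j₃.comp j₂) ∘ a, fun x => ⟨_, rfl⟩, fun c hc => ?_⟩
    have h1 := ha c hc
    rw [← holds_comp j₁ a (ψ.comp (j₃.comp j₂)) (hψinj.comp (hj₃.comp hj₂))] at h1
    rw [← hsub]
    exact h1
  · rintro _ ⟨q, _, rfl⟩
    exact ⟨q, rfl⟩
  · intro x hx y hy hxy
    have hne : (j₂.comp j₁) ⟨x, hx⟩ ≠ (j₂.comp j₁) ⟨y, hy⟩ := by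
      intro h
      exact hxy (congrArg Subtype.val (hj₁ (hj₂ h)))
    obtain ⟨a, ha, b, hb, hab⟩ := hsep _ _ hne
    refine ⟨ψ a, ⟨a, ha, rfl⟩, ψ b, ⟨b, hb, rfl⟩, ?_⟩
    have hxe : x = ψ (j₃ ((j₂.comp j₁) ⟨x, hx⟩)) := (hψ ⟨x, hx⟩).symm
    have hye : y = ψ (j₃ ((j₂.comp j₁) ⟨y, hy⟩)) := (hψ ⟨y, hy⟩).symm
    have hcomm : ∀ u v : Q₃, Commute (ψ u) (ψ v) ↔ Commute u v := by
      intro u v
      constructor
      · intro h
        apply hψinj
        simpa using h.eq
      · intro h
        exact h.map ψ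
    have e1 : ∀ u v w : Q₃, Commute (ψ u) (ψ v * ψ w * (ψ v)⁻¹) ↔ Commute u (v * w * v⁻¹) := by
      intro u v w
      rw [← hcomm, map_mul, map_mul, map_inv]
    rw [hxe, hye, e1, e1]
    exact hab

end ambient

/-! ### The transfinite tower -/

section tower

variable {Ω : Type u} (F : Subgroup (Equiv.Perm Ω) → Subgroup (Equiv.Perm Ω))

/-- `tower F o` is the join of all `F (tower F b)`, `b < o`. -/
noncomputable def tower (o : Ordinal.{u}) : Subgroup (Equiv.Perm Ω) :=
  ⨆ b : Set.Iio o, F (tower b.1)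
termination_by o
decreasing_by exact b.2

lemma le_tower {b o : Ordinal.{u}} (h : b < o) : F (tower F b) ≤ tower F o := by
  rw [tower.eq_1 F o]
  exact le_iSup (fun b : Set.Iio o => F (tower F b.1)) ⟨b, h⟩

variable {F}

lemma tower_mono (hF : ∀ P, P ≤ F P) {b o : Ordinal.{u}} (h : b ≤ o) :
    tower F b ≤ tower F o := by
  rcases h.eq_or_lt with rfl | h
  · exact le_rfl
  · exact (hF _).trans (le_tower F h)

lemma mem_tower (hF : ∀ P, P ≤ F P) {o : Ordinal.{u}} {x : Equiv.Perm Ω}
    (hx : x ∈ tower F o) : x = 1 ∨ ∃ b < o, x ∈ F (tower F b) := by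
  rw [tower.eq_1 F o] at hx
  rcases isEmpty_or_nonempty (Set.Iio o) with he | hne
  · left
    rw [iSup_of_empty] at hx
    exact Subgroup.mem_bot.1 hx
  · right
    have hdir : Directed (· ≤ ·) (fun b : Set.Iio o => F (tower F b.1)) := by
      have hmono : Monotone (fun b : Set.Iio o => F (tower F b.1)) := by
        intro b c hbc
        rcases hbc.eq_or_lt with rfl | h
        · exact le_rfl
        · exact (le_tower F h).trans (hF _)
      exact hmono.directed_le
    rw [Subgroup.mem_iSup_of_directed hdir] at hx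
    obtain ⟨b, hb⟩ := hx
    exact ⟨b.1, b.2, hb⟩

/-- free permutation groups of bounded size. -/
def Good (lam : Cardinal.{u}) (P : Subgroup (Equiv.Perm Ω)) : Prop :=
  (∀ g ∈ P, ∀ ω, g ω = ω → g = 1) ∧ #P ≤ lam

lemma good_tower (hF : ∀ P, P ≤ F P) (lam : Cardinal.{u}) (h0 : ℵ₀ ≤ lam)
    (hgood : ∀ P, Good lam P → Good lam (F P)) (o : Ordinal.{u}) (ho : o.card ≤ lam) :
    Good lam (tower F o) := by
  induction o using WellFoundedLT.induction with
  | ind o ih =>
    have ih' : ∀ b < o, Good lam (F (tower F b)) := fun b hb =>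
      hgood _ (ih b hb ((Ordinal.card_le_card hb.le).trans ho))
    constructor
    · intro g hg ω hω
      rcases mem_tower hF hg with h | ⟨b, hb, h⟩
      · exact h
      · exact (ih' b hb).1 g h ω hω
    · have hsub : (tower F o : Set (Equiv.Perm Ω)) ⊆
          {1} ∪ ⋃ b < o, (F (tower F b) : Set (Equiv.Perm Ω)) := by
        intro x hx
        rcases mem_tower hF hx with h | ⟨b, hb, h⟩
        · left; exact h
        · right
          simp only [Set.mem_iUnion]
          exact ⟨b, hb, h⟩
      refine (Cardinal.mk_le_mk_of_subset hsub).trans ((Cardinal.mk_union_le _ _).trans ?_)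
      have h1 : #(({1} : Set (Equiv.Perm Ω))) ≤ lam := by
        rw [Cardinal.mk_singleton]
        exact Cardinal.one_le_aleph0.trans h0
      have h2 : #(⋃ b < o, (F (tower F b) : Set (Equiv.Perm Ω)) : Set (Equiv.Perm Ω)) ≤ lam :=
        Cardinal.mk_biUnion_le_of_le ho h0 (fun b => (F (tower F b) : Set (Equiv.Perm Ω)))
          (fun b hb => (ih' b hb).2)
      exact (add_le_add h1 h2).trans (Cardinal.add_eq_self h0).le

/-- coefficients of a word over the tower come from an earlier stage. -/
lemma exists_lift_word (hF : ∀ P, P ≤ F P) {o : Ordinal.{u}} (ho : ∀ b < o, b + 1 < o)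
    (ho0 : 0 < o) {X : Type u} (w : Monoid.Coprod (tower F o) (FreeGroup X)) :
    ∃ b < o, ∀ h : tower F b ≤ tower F o,
      ∃ w' : Monoid.Coprod (tower F b) (FreeGroup X),
        mapWord (Subgroup.inclusion h) id w' = w := by
  induction w using Monoid.Coprod.induction_on with
  | inl g =>
    rcases mem_tower hF g.2 with h1 | ⟨b, hb, hg⟩
    · refine ⟨0, ho0, fun h => ⟨1, ?_⟩⟩
      rw [map_one, Subtype.ext h1 (a2 := (1 : tower F o)), map_one]
    · refine ⟨b + 1, ho b hb, fun h => ⟨Monoid.Coprod.inl ⟨g.1, ?_⟩, ?_⟩⟩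
      · exact le_tower F (lt_add_one b) hg
      · simp only [mapWord, Monoid.Coprod.map_apply_inl]
        rfl
  | inr v =>
    refine ⟨0, ho0, fun h => ⟨Monoid.Coprod.inr v, ?_⟩⟩
    simp [mapWord]
  | mul x y ihx ihy =>
    obtain ⟨b, hb, hx⟩ := ihx
    obtain ⟨c, hc, hy⟩ := ihy
    refine ⟨max b c, max_lt hb hc, fun h => ?_⟩
    obtain ⟨x', hx'⟩ := hx (tower_mono hF hb.le)
    obtain ⟨y', hy'⟩ := hy (tower_mono hF hc.le)
    refine ⟨mapWord (Subgroup.inclusion (tower_mono hF (le_max_left b c))) id x' *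
      mapWord (Subgroup.inclusion (tower_mono hF (le_max_right b c))) id y', ?_⟩
    have hmm : ∀ (d : Ordinal.{u}) (h1 : tower F d ≤ tower F (max b c))
        (h2 : tower F d ≤ tower F o) (z : Monoid.Coprod (tower F d) (FreeGroup X)),
        mapWord (Subgroup.inclusion h) id (mapWord (Subgroup.inclusion h1) id z) =
          mapWord (Subgroup.inclusion h2) id z := by
      intro d h1 h2 z
      simp only [mapWord]
      rw [Monoid.Coprod.map_map]
      congr 1
      · congr 1
        ext x
        simp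
    rw [map_mul, hmm b _ (tower_mono hF hb.le), hmm c _ (tower_mono hF hc.le), hx', hy']

lemma exists_lift_condition (hF : ∀ P, P ≤ F P) {o : Ordinal.{u}} (ho : ∀ b < o, b + 1 < o)
    (ho0 : 0 < o) {X : Type u} (c : Condition (tower F o) X) :
    ∃ b < o, ∀ h : tower F b ≤ tower F o,
      ∃ c' : Condition (tower F b) X, c'.map (Subgroup.inclusion h) id = c := by
  cases c with
  | eqn w =>
    obtain ⟨b, hb, hw⟩ := exists_lift_word hF ho ho0 w
    refine ⟨b, hb, fun h => ?_⟩
    obtain ⟨w', hw'⟩ := hw h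
    exact ⟨.eqn w', by simp [Condition.map, hw']⟩
  | ineqn w =>
    obtain ⟨b, hb, hw⟩ := exists_lift_word hF ho ho0 w
    refine ⟨b, hb, fun h => ?_⟩
    obtain ⟨w', hw'⟩ := hw h
    exact ⟨.ineqn w', by simp [Condition.map, hw']⟩

lemma map_map_inclusion {X : Type u} {P₁ P₂ P₃ : Subgroup (Equiv.Perm Ω)} (h₁ : P₁ ≤ P₂)
    (h₂ : P₂ ≤ P₃) (c : Condition P₁ X) :
    (c.map (Subgroup.inclusion h₁) id).map (Subgroup.inclusion h₂) id =
      c.map (Subgroup.inclusion (h₁.trans h₂)) id := by
  have hmm : ∀ (z : Monoid.Coprod P₁ (FreeGroup X)),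
      mapWord (Subgroup.inclusion h₂) id (mapWord (Subgroup.inclusion h₁) id z) =
        mapWord (Subgroup.inclusion (h₁.trans h₂)) id z := by
    intro z
    simp only [mapWord]
    rw [Monoid.Coprod.map_map]
    congr 1
    · congr 1
      ext x
      simp
  cases c <;> simp [Condition.map, hmm]

end tower

/-- **Main theorem.** For every regular cardinal `κ` and every cardinal `μ ≥ κ` there is a
`κ`-existentially closed group `G` of cardinality `2 ^ μ > κ` which has exactly
`2 ^ μ = |G| < 2 ^ |G|` automorphisms. -/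
theorem exists_small_aut (κ : Cardinal.{u}) (hκ : κ.IsRegular) (μ : Cardinal.{u}) (hμ : κ ≤ μ) :
    ∃ (G : Type u) (_ : Group G), IsExistentiallyClosed κ G ∧
      #G = 2 ^ μ ∧ κ < #G ∧ #(MulAut G) = #G ∧ #(MulAut G) < 2 ^ #G := by
  classical
  obtain ⟨M, rfl⟩ : ∃ M : Type u, μ = #M := ⟨μ.out, (Cardinal.mk_out μ).symm⟩
  obtain ⟨Y, rfl⟩ : ∃ Y : Type u, κ = #Y := ⟨κ.out, (Cardinal.mk_out κ).symm⟩
  have hY : ℵ₀ ≤ #Y := hκ.aleph0_le
  have hM : ℵ₀ ≤ #M := hY.trans hμ
  set lam : Cardinal.{u} := 2 ^ #M with hlam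
  have hMlam : #M < lam := Cardinal.cantor _
  have h0 : ℵ₀ ≤ lam := hM.trans hMlam.le
  let Ω : Type u := Set (Set M)
  have hΩ : 2 ^ #M < #Ω := by
    have h1 : #Ω = 2 ^ (2 ^ #M : Cardinal.{u}) := by
      simp only [Ω, Cardinal.mk_set]
    rw [h1]
    exact Cardinal.cantor _
  -- the step function
  have hstep := exists_step Ω Y M hY hM hμ hΩ
  choose! Fs hFle hFfree hFcard hFsol Asep hAcard hAsub hAsep using hstep
  let F : Subgroup (Equiv.Perm Ω) → Subgroup (Equiv.Perm Ω) :=
    fun P => if Good lam P then Fs P else P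
  have hFg : ∀ P, Good lam P → F P = Fs P := fun P h => if_pos h
  have hF : ∀ P, P ≤ F P := by
    intro P
    by_cases h : Good lam P
    · rw [hFg P h]; exact hFle P h.1 h.2
    · simp only [F, if_neg h]; exact le_rfl
  have hgood : ∀ P, Good lam P → Good lam (F P) := by
    intro P h
    rw [hFg P h]
    exact ⟨hFfree P h.1 h.2, (hFcard P h.1 h.2).le⟩
  -- the length of the tower
  set o : Ordinal.{u} := (#Y).ord with ho
  have hocard : o.card = #Y := by rw [ho, Cardinal.card_ord]
  have ho0 : 0 < o := hκ.ord_pos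
  have hosucc : ∀ b < o, b + 1 < o := by
    intro b hb
    exact (Cardinal.isSuccLimit_ord hY).succ_lt hb
  have hgt : ∀ b ≤ o, Good lam (tower F b) := fun b hb =>
    good_tower hF lam h0 hgood b
      ((Ordinal.card_le_card hb).trans (hocard.le.trans (hμ.trans hMlam.le)))
  have hmono : ∀ {b c : Ordinal.{u}}, b ≤ c → tower F b ≤ tower F c := fun h => tower_mono hF h
  have hmem : ∀ x ∈ tower F o, ∃ b < o, x ∈ tower F b := by
    intro x hx
    rcases mem_tower hF hx with h | ⟨b, hb, h⟩
    · exact ⟨0, ho0, by rw [h]; exact one_mem _⟩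
    · exact ⟨b + 1, hosucc b hb, le_tower F (lt_add_one b) h⟩
  -- the separating set
  let A : Set (tower F o) := {x | ∃ b < o, (x : Equiv.Perm Ω) ∈ Asep (tower F b)}
  have hA : #A ≤ #M := by
    have h1 : #A ≤ #(⋃ b < o, Asep (tower F b) : Set (Equiv.Perm Ω)) := by
      refine Cardinal.mk_le_of_injective
        (f := fun x : A => (⟨x.1.1, ?_⟩ : (⋃ b < o, Asep (tower F b) : Set (Equiv.Perm Ω)))) ?_
      · obtain ⟨b, hb, h⟩ := x.2
        simp only [Set.mem_iUnion]
        exact ⟨b, hb, h⟩
      · intro x y h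
        have := congrArg Subtype.val h
        exact Subtype.ext (Subtype.ext this)
    refine h1.trans (Cardinal.mk_biUnion_le_of_le (hocard.le.trans hμ) hM
      (fun b => Asep (tower F b)) fun b hb => ?_)
    exact hAcard _ (hgt b hb.le).1 (hgt b hb.le).2
  -- separation of points
  have hsep : ∀ x y : tower F o, x ≠ y → ∃ a ∈ A, ∃ b ∈ A,
      ¬ (Commute a (x * b * x⁻¹) ↔ Commute a (y * b * y⁻¹)) := by
    intro x y hxy
    obtain ⟨b₁, hb₁, hx⟩ := hmem x.1 x.2
    obtain ⟨b₂, hb₂, hy⟩ := hmem y.1 y.2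
    have hb : max b₁ b₂ < o := max_lt hb₁ hb₂
    obtain ⟨a, ha, c, hc, hac⟩ := hAsep (tower F (max b₁ b₂)) (hgt _ hb.le).1 (hgt _ hb.le).2
      x.1 (hmono (le_max_left _ _) hx) y.1 (hmono (le_max_right _ _) hy)
      (fun h => hxy (Subtype.ext h))
    have hsub : ∀ z ∈ Asep (tower F (max b₁ b₂)), z ∈ tower F o := by
      intro z hz
      have h1 := hAsub _ (hgt _ hb.le).1 (hgt _ hb.le).2 hz
      rw [← hFg _ (hgt _ hb.le)] at h1
      exact le_tower F hb h1
    refine ⟨⟨a, hsub a ha⟩, ⟨_, hb, ha⟩, ⟨c, hsub c hc⟩, ⟨_, hb, hc⟩, ?_⟩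
    have hcomm : ∀ u v : tower F o, Commute u v ↔ Commute (u : Equiv.Perm Ω) v := by
      intro u v
      constructor
      · intro h
        exact congrArg Subtype.val h.eq
      · intro h
        exact Subtype.ext h.eq
    rw [hcomm, hcomm]
    exact hac
  -- cardinality
  have hcard : #(tower F o) = lam := by
    apply le_antisymm (hgt o le_rfl).2
    have h1 := hFcard _ (hgt 0 ho0.le).1 (hgt 0 ho0.le).2
    rw [← hFg _ (hgt 0 ho0.le)] at h1
    exact h1.ge.trans (Cardinal.mk_le_mk_of_subset (le_tower F ho0))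
  -- automorphisms
  have hfix : ∀ σ : MulAut (tower F o), (∀ a ∈ A, σ a = a) → σ = 1 := by
    intro σ hσ
    ext1 g
    by_contra hne
    obtain ⟨a, ha, b, hb, hab⟩ := hsep g (σ g) (fun h => hne h.symm)
    apply hab
    have h1 : σ (g * b * g⁻¹) = σ g * b * (σ g)⁻¹ := by
      rw [map_mul, map_mul, map_inv, hσ b hb]
    have h2 : Commute (σ a) (σ (g * b * g⁻¹)) ↔ Commute a (g * b * g⁻¹) := by
      constructor
      · intro h
        apply σ.injective
        simpa using h.eq
      · intro h
        exact h.map σ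
    rw [← h2, h1, hσ a ha]
  have haut_le : #(MulAut (tower F o)) ≤ lam := by
    have hinj : Function.Injective
        (fun (σ : MulAut (tower F o)) (a : A) => (σ a.1 : tower F o)) := by
      intro σ τ h
      have h1 : τ⁻¹ * σ = 1 := by
        apply hfix
        intro a ha
        have := congrFun h ⟨a, ha⟩
        simp only at this
        rw [MulAut.mul_apply, this, MulAut.inv_apply_self]
      exact (inv_mul_eq_one.1 h1).symm
    refine (Cardinal.mk_le_of_injective hinj).trans ?_
    rw [← Cardinal.power_def, hcard]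
    refine (Cardinal.power_le_power_left (aleph0_pos.trans_le h0).ne' hA).trans ?_
    rw [hlam, ← Cardinal.power_mul, Cardinal.mul_eq_self hM]
  have haut_ge : lam ≤ #(MulAut (tower F o)) := by
    rw [← hcard]
    refine Cardinal.mk_le_of_injective (f := MulAut.conj) ?_
    rw [injective_iff_map_eq_one]
    intro g hg
    by_contra hne
    obtain ⟨a, ha, b, hb, hab⟩ := hsep g 1 hne
    apply hab
    have h1 : g * b * g⁻¹ = b := by
      have := congrArg (fun τ : MulAut (tower F o) => τ b) hg
      simpa using this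
    rw [h1]
    simp
  have haut : #(MulAut (tower F o)) = lam := le_antisymm haut_le haut_ge
  refine ⟨tower F o, inferInstance, ?_, hcard, ?_, ?_, ?_⟩
  · -- existential closedness
    intro X S hS hsol
    obtain ⟨H, hH, i, hi, hSi⟩ := hsol
    choose lev hlev hlift using fun c : S => exists_lift_condition hF hosucc ho0 c.1
    have hsup : ⨆ c, lev c < o := by
      exact Ordinal.iSup_lt_of_lt_cof (hS.trans_eq hκ.cof_ord.symm) hlev
    set β : Ordinal.{u} := ⨆ c, lev c with hβ
    have hle : ∀ c, lev c ≤ β := fun c => Ordinal.le_iSup lev c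
    have hβo : tower F β ≤ tower F o := hmono hsup.le
    have hlift' : ∀ c : S, ∃ c' : Condition (tower F β) X,
        c'.map (Subgroup.inclusion hβo) id = c.1 := by
      intro c
      obtain ⟨c', hc'⟩ := hlift c (hmono (hlev c).le)
      refine ⟨c'.map (Subgroup.inclusion (hmono (hle c))) id, ?_⟩
      rw [map_map_inclusion]
      exact hc'
    choose low hlow using hlift'
    have hgβ := hgt β hsup.le
    obtain ⟨a, haF, ha⟩ := hFsol (tower F β) hgβ.1 hgβ.2 X (Set.range low)
      (Cardinal.mk_range_le.trans hS.le)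
      ⟨H, hH, i.comp (Subgroup.inclusion hβo),
        hi.comp (Subgroup.inclusion_injective hβo), by
        obtain ⟨s, hs⟩ := hSi
        refine ⟨s, ?_⟩
        rintro _ ⟨c, rfl⟩
        have h1 := hs c.1 c.2
        rw [← hlow c, holds_map] at h1
        exact h1⟩
    have haG : ∀ x, a x ∈ tower F o := by
      intro x
      have h1 := haF x
      rw [← hFg _ hgβ] at h1
      exact le_tower F hsup h1
    refine ⟨fun x => ⟨a x, haG x⟩, fun c hc => ?_⟩
    have h1 := ha (low ⟨c, hc⟩) ⟨_, rfl⟩
    have h2 : (low ⟨c, hc⟩).Holds (Subgroup.inclusion hβo) (fun x => ⟨a x, haG x⟩) := by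
      rw [← holds_comp _ _ (tower F o).subtype (Subgroup.subtype_injective _)]
      exact h1
    have h3 : (low ⟨c, hc⟩).map (Subgroup.inclusion hβo) id = c := hlow ⟨c, hc⟩
    rw [← h3, holds_map]
    exact h2
  · rw [hcard]; exact hμ.trans_lt hMlam
  · rw [haut, hcard]
  · rw [haut, hcard]; exact Cardinal.cantor _

end Pool.Agent.H49EC
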